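import Mathlib
import Pool.Agent.R252.Pol.Line

/-!
# The reflection inequality for the modulus of joining curve families

For every `n ≥ 2` and all compact `E ⊂ {x_n > 0}`, `F ⊂ {x_n < 0}`,
`M(Δ(E, F)) ≤ M(Δ(E, F*))`, where `F*` is the reflection of `F` in `{x_n = 0}`.

Proof: polarization. Given `ρ` admissible for `Δ(E, F*)`, take the truncated potential
`u(x) = min(1, inf ∫_γ ρ ds)` over curves from `E` to `x`, polarize it, and swap the values of `ρ`
accordingly. Measurability of `u` is obtained by first replacing `ρ` by a lower semicontinuous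
density with a positive lower bound on a large ball and a logarithmic barrier around it.
-/

set_option autoImplicit false

open MeasureTheory Set Module
open scoped ENNReal NNReal
open Pool.Agent.R252.Pol

namespace Pool.Agent.Results.MP_69cc0b_an.ReflectionInequality

/-- Euclidean space `ℝⁿ`. -/
abbrev E (n : ℕ) := EuclideanSpace ℝ (Fin n)

/-- The last index `n` of the coordinates of `ℝⁿ`, `n ≥ 2`. -/
def last {n : ℕ} (hn : 2 ≤ n) : Fin n := ⟨n - 1, by omega⟩

/-- The reflection in the hyperplane `{x_n = 0}`: the last coordinate changes its sign. -/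
def refl {n : ℕ} (hn : 2 ≤ n) (x : E n) : E n :=
  WithLp.toLp 2 (fun j => if j = last hn then - x j else x j)

/-- The `n`-modulus `M(Δ(A, B))` of the family of curves joining `A` and `B` in `ℝⁿ ∪ {∞}`:
the infimum of `∫ ρⁿ dm` over all Borel `ρ : ℝⁿ → [0, ∞]` with `∫_γ ρ ds ≥ 1` for all locally
rectifiable `γ : [a, b] → ℝⁿ ∪ {∞}` with `γ(a) ∈ A`, `γ(b) ∈ B`. (A curve on a compact interval
is locally rectifiable exactly when it is rectifiable, that is, `ℝⁿ`-valued, continuous and of
finite length; see `Admissible` and `lineIntegral`.) -/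
noncomputable def modulus (n : ℕ) (A B : Set (E n)) : ℝ≥0∞ :=
  ⨅ (ρ : E n → ℝ≥0∞) (_ : Measurable ρ) (_ : Admissible ρ A B), ∫⁻ x, ρ x ^ n

/-- The reflection as a linear isometry. -/
noncomputable def reflIso {n : ℕ} (hn : 2 ≤ n) : E n ≃ₗᵢ[ℝ] E n :=
  LinearIsometryEquiv.piLpCongrRight 2 (fun j => if j = last hn then LinearIsometryEquiv.neg ℝ
    else LinearIsometryEquiv.refl ℝ ℝ)

lemma reflIso_apply {n : ℕ} (hn : 2 ≤ n) (x : E n) : reflIso hn x = refl hn x := by
  rw [reflIso, LinearIsometryEquiv.piLpCongrRight_apply]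
  unfold refl
  congr 1
  funext j
  split_ifs <;> simp

lemma refl_refl {n : ℕ} (hn : 2 ≤ n) (x : E n) : refl hn (refl hn x) = x := by
  ext j
  simp only [refl]
  split_ifs <;> simp

lemma refl_last {n : ℕ} (hn : 2 ≤ n) (x : E n) : refl hn x (last hn) = - x (last hn) := by
  simp [refl]

lemma refl_fix {n : ℕ} (hn : 2 ≤ n) (x : E n) (h : x (last hn) = 0) : refl hn x = x := by
  ext j
  simp only [refl]
  split_ifs with hj
  · rw [hj, h, neg_zero]
  · rfl

/-- **Theorem.** For every `n ≥ 2` and all non-empty compact sets `E` in the upper and `F` in the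
lower open half-space of `ℝⁿ`, `M(Δ(E, F)) ≤ M(Δ(E, F*))`, `F*` the reflection of `F`. -/
theorem result (n : ℕ) (hn : 2 ≤ n) (S F : Set (E n)) (hS : IsCompact S) (_hF : IsCompact F)
    (_hS0 : S.Nonempty) (_hF0 : F.Nonempty) (hSpos : ∀ x ∈ S, 0 < x (last hn))
    (hFneg : ∀ x ∈ F, x (last hn) < 0) :
    modulus n S F ≤ modulus n S (refl hn '' F) := by
  have hn' : (0 : ℝ) < n := by exact_mod_cast (by omega : 0 < n)
  have hfun : (refl hn : E n → E n) = reflIso hn := by
    funext x; exact (reflIso_apply hn x).symm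
  have himg : refl hn '' F = refl hn ⁻¹' F := by
    ext x
    constructor
    · rintro ⟨y, hy, rfl⟩
      rw [mem_preimage, refl_refl]; exact hy
    · intro hx
      exact ⟨refl hn x, hx, refl_refl hn x⟩
  refine le_iInf fun ρ => le_iInf fun hρ => le_iInf fun hadm => ?_
  rw [himg] at hadm
  have hpow : ∀ f : E n → ℝ≥0∞, nrm n f ^ (n : ℝ) = ∫⁻ x, f x ^ n := by
    intro f
    unfold nrm
    rw [← ENNReal.rpow_mul, one_div_mul_cancel hn'.ne', ENNReal.rpow_one]
    simp only [ENNReal.rpow_natCast]
  have hmain := nrm_le_of_adm (X := E n) (n := n) hn (by simp) hS (r := refl hn)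
    (h := fun x => x (last hn)) (F := F)
    (by rw [hfun]; exact (reflIso hn).lipschitz)
    (by rw [hfun]; exact (reflIso hn).measurePreserving)
    (by fun_prop) (fun x hx => refl_fix hn x hx) (refl_refl hn) (refl_last hn) hSpos hFneg
    (M := (modulus n S F) ^ (1 / (n : ℝ)))
    (by
      intro f hf hadmf
      have h1 : modulus n S F ≤ ∫⁻ x, f x ^ n :=
        iInf₂_le_of_le f hf (iInf_le_of_le (adm_to_admissible hadmf) le_rfl)
      unfold nrm
      simp only [ENNReal.rpow_natCast]
      exact ENNReal.rpow_le_rpow h1 (by positivity))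
    hρ (admissible_to_adm hρ hadm)
  have h2 := ENNReal.rpow_le_rpow hmain hn'.le
  rwa [← ENNReal.rpow_mul, one_div_mul_cancel hn'.ne', ENNReal.rpow_one, hpow] at h2

end Pool.Agent.Results.MP_69cc0b_an.ReflectionInequality
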